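import Pool.Agent.W544.FF.Defs3
import Pool.Agent.W352.PG.GHTP

/-!
Project FF part 3 (owner helper544), part GHTS: from `T` to the total cohomology, block-symmetric
version.  The version without symmetry is `Pool.Agent.W352.PG.GHTP`, which is adapted here.
-/

set_option autoImplicit false

open Matrix Finset Module

namespace Pool.Agent.W721.FF.Ghts

open Pool.Agent.W544.PG Pool.Agent.W544.FF Pool.Agent.W338.PG.Ght Pool.Agent.W352.PG.Ghtp

noncomputable section

variable {n s m k : ℕ}

variable {q : Fin m → Fin s ⊕ Fin k} {ε : Fin k → Fin m}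

theorem ghts : S_ghts := by
  intro n r s m b c j T cc d cd a f p hfa H W hWf hWs hWc hWa w hw
  classical
  -- the parts of `w`
  have hsum : w = ∑ q' : Fin m → Option (Fin s), fun J =>
      if (fun i => Sum.elim some (fun _ => none) (J i)) = q' then w J else 0 := by
    funext J
    rw [Finset.sum_apply, Finset.sum_ite_eq, if_pos (mem_univ _)]
  rw [hsum]
  refine Submodule.sum_mem _ fun q' _ => ?_
  obtain ⟨k, q, ε, h, hq'⟩ := pt_exists q'
  have hpart : (fun J => if (fun i => Sum.elim some (fun _ => none) (J i)) = q' then w J else 0) =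
      rho q (fun K => w (mrg q K)) := by
    funext J
    by_cases hJ : ∃ K, mrg q K = J
    · obtain ⟨K, rfl⟩ := hJ
      rw [rho_mrg h, if_pos]
      funext i
      rw [hq' i]
      unfold mrg
      rcases q i with a | i' <;> rfl
    · rw [rho_not _ _ fun K hK => hJ ⟨K, hK⟩, if_neg]
      intro he
      have h1 : ∀ i', ∃ c, J (ε i') = Sum.inr c := by
        intro i'
        have h2 := congrFun he (ε i')
        rw [hq' (ε i'), h.qe, Sum.elim_inr] at h2
        rcases hJi : J (ε i') with a | a
        · rw [hJi] at h2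
          exact absurd h2 (by simp)
        · exact ⟨a, rfl⟩
      choose K hK using h1
      refine hJ ⟨K, funext fun i => ?_⟩
      unfold mrg
      rcases hq : q i with b | i'
      · have h2 := congrFun he i
        rw [hq' i, hq, Sum.elim_inl] at h2
        rcases hJi : J i with a | a
        · rw [hJi, Sum.elim_inl] at h2
          rw [Option.some_injective _ h2]
          rfl
        · rw [hJi] at h2
          exact absurd h2 (by simp)
      · rw [← h.eq i i' hq, hK]
        rfl
  rw [hpart]
  by_cases hz : ∀ w₁ ∈ W, ∀ K : Fin k → Fin n, w₁ (mrg q K) = 0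
  · have h1 : (fun K : Fin k → Fin n => w (mrg q K)) = 0 := funext fun K => hz w hw K
    rw [h1, map_zero]
    exact Submodule.zero_mem _
  push Not at hz
  obtain ⟨w₁, hw₁, K₁, hK₁⟩ := hz
  obtain ⟨hcol, hc, hkp⟩ := hWc w₁ hw₁ _ hK₁
  have hd : ∀ i b, q i = Sum.inl b → d b = a i := by
    intro i b hb
    have h1 := hcol i
    unfold mrg at h1
    rw [hb] at h1
    exact h1
  have hcK : ∀ i', cc (K₁ i') = a (ε i') := by
    intro i'
    have h1 := hcol (ε i')
    rw [mrg_e h] at h1
    exact h1
  have hcard : (univ.filter fun i => (mrg q K₁ i).isRight = true).card = k := by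
    have h1 : (univ.filter fun i => (mrg q K₁ i).isRight = true) = univ.image ε := by
      ext i
      rw [mem_filter, mem_image]
      constructor
      · rintro ⟨-, hi⟩
        unfold mrg at hi
        rcases hq : q i with b | i'
        · rw [hq] at hi
          exact absurd hi (by simp)
        · exact ⟨i', mem_univ _, h.eq i i' hq⟩
      · rintro ⟨i', -, rfl⟩
        refine ⟨mem_univ _, ?_⟩
        rw [mrg_e h]
        rfl
    rw [h1, card_image_of_injective _ h.mono.injective, card_univ, Fintype.card_fin]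
  have hns : ∀ i, nb (fun i' => f (ε i')) (fun i' => a (ε i')) i ≤ p i := by
    intro i
    refine le_trans ?_ (hkp i)
    unfold nb
    refine card_le_card fun x hx => ?_
    obtain ⟨-, i', h1, h2⟩ := mem_filter.1 hx
    refine mem_filter.2 ⟨mem_univ _, ε i', K₁ i', h1, mrg_e h K₁ i', ?_⟩
    rw [hcK]
    exact h2
  have hck : ∑ i, Sum.elim cd (fun _ => 0) (q i) + k = c := by
    have h1 : ∀ i, Sum.elim cd (fun _ => 1) (mrg q K₁ i) = Sum.elim cd (fun _ => 0) (q i) +
        if (mrg q K₁ i).isRight = true then 1 else 0 := by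
      intro i
      unfold mrg
      rcases q i with b | i' <;> simp
    rw [← hc]
    simp_rw [h1]
    rw [sum_add_distrib, ← card_filter, hcard]
  obtain ⟨e, he⟩ : ∃ e, e = ∑ i, Sum.elim cd (fun _ => 0) (q i) := ⟨_, rfl⟩
  by_cases hje : j ≤ e
  · exact rho_coniv2 T cc d h cd a hd 0 j (by rw [← he]; omega) (ins20 T cc _ _)
  -- the main case
  obtain ⟨l, hl⟩ : ∃ l, l = (j - e + 1) / 2 := ⟨_, rfl⟩
  refine rho_coniv2 T cc d h cd a hd l j (by rw [← he]; omega) ?_
  obtain ⟨Wq, hWq⟩ : ∃ Wq : Submodule ℚ ((Fin k → Fin n) → ℚ),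
    Wq = W.map (LinearMap.funLeft ℚ ℚ (mrg q)) := ⟨_, rfl⟩
  have hcs : cspan Wq = (cspan W).map (LinearMap.funLeft ℂ ℂ (mrg q)) := by
    unfold cspan
    rw [Submodule.map_span, hWq]
    congr 1
    ext f
    constructor
    · rintro ⟨_, ⟨g, hg, rfl⟩, rfl⟩
      exact ⟨cx g, ⟨g, hg, rfl⟩, rfl⟩
    · rintro ⟨_, ⟨g, hg, rfl⟩, rfl⟩
      exact ⟨_, ⟨g, hg, rfl⟩, rfl⟩
  have hcomm : ∀ v : (Fin m → Fin s ⊕ Fin n) → ℂ,
      LinearMap.funLeft ℂ ℂ (mrg q) (actL (T.xS s) v) =
        actL T.x (LinearMap.funLeft ℂ ℂ (mrg (n := n) q) v) := fun v => (act_comm T h v).symm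
  have hle : Wq ≤ T.ins2 cc (fun i' => a (ε i')) l := by
    refine H k l _ (fun i' => f (ε i')) (fun i i' hi => hfa _ _ hi) hns Wq ?_ ?_ ?_ ?_
    · intro v hv K hK i'
      rw [hWq] at hv
      obtain ⟨v, hv, rfl⟩ := hv
      have h1 := (hWc v hv (mrg q K) hK).1 (ε i')
      rw [mrg_e h] at h1
      exact h1
    · intro v hv π' hπ' K
      rw [hWq] at hv
      obtain ⟨v, hv, rfl⟩ := hv
      obtain ⟨ι, hι⟩ : ∃ ι : Fin k ↪ Fin m, ∀ i', ι i' = ε i' :=
        ⟨⟨ε, h.mono.injective⟩, fun _ => rfl⟩
      have p1 : ∀ i', (π'.viaEmbedding ι) (ε i') = ε (π' i') := by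
        intro i'
        rw [← hι i', ← hι (π' i')]
        exact Equiv.Perm.viaEmbedding_apply π' ι i'
      have p2 : ∀ i b', q i = Sum.inl b' → (π'.viaEmbedding ι) i = i := by
        intro i b' hb'
        refine Equiv.Perm.viaEmbedding_apply_of_notMem π' ι i ?_
        rintro ⟨i', hi'⟩
        rw [← hi', hι, h.qe] at hb'
        cases hb'
      have p3 : ∀ i, f ((π'.viaEmbedding ι) i) = f i := by
        intro i
        rcases hq : q i with b' | i'
        · rw [p2 i b' hq]
        · rw [← h.eq i i' hq, p1]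
          exact hπ' i'
      have p4 : mrg (n := n) q (fun j => K (π' j)) = fun i => mrg q K ((π'.viaEmbedding ι) i) := by
        funext i
        rcases hq : q i with b' | i'
        · rw [p2 i b' hq]
          unfold mrg
          rw [hq]
          rfl
        · rw [← h.eq i i' hq, p1, mrg_e h, mrg_e h]
      have p5 := hWf v hv (π'.viaEmbedding ι) p3 (mrg q K)
      rw [← p4] at p5
      exact p5
    · intro v hv
      rw [hcs] at hv ⊢
      obtain ⟨v, hv, rfl⟩ := hv
      exact ⟨actL (T.xS s) v, hWs v hv, hcomm v⟩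
    · intro a ha v hv
      rw [hcs] at hv
      refine quot (actL (T.xS s)) (actL T.x) (LinearMap.funLeft ℂ ℂ (mrg q)) hcomm (cspan W)
        hWs (a : ℂ) ?_ v hv
      refine hWa a ?_
      have h1 : (c : ℤ) = e + k := by rw [he]; exact_mod_cast hck.symm
      omega
  apply hle
  rw [hWq]
  exact ⟨w, hw, rfl⟩

end

end Pool.Agent.W721.FF.Ghts
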